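import Pool.Agent.N805.JG.Stm

/-! Project JG, part MEAS: order statistics are measurable. -/

set_option autoImplicit false

open MeasureTheory Pool.Agent.N805.JG

namespace Pool.Agent.N946.JG

lemma sort_le_iff {M : ℕ} (θ : Fin M → ℝ) (k : Fin M) (c : ℝ) :
    θ (Tuple.sort θ k) ≤ c ↔ (k : ℕ) < ∑ i : Fin M, (if θ i ≤ c then 1 else 0) := by
  have hmono : Monotone (θ ∘ Tuple.sort θ) := Tuple.monotone_sort θ
  have h1 : ∑ i : Fin M, (if θ i ≤ c then 1 else 0) =
      (Finset.univ.filter fun l : Fin M => (θ ∘ Tuple.sort θ) l ≤ c).card := by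
    rw [Finset.card_filter, ← Equiv.sum_comp (Tuple.sort θ)]
    rfl
  rw [h1]
  constructor
  · intro h
    have h2 : Finset.Iic k ⊆ Finset.univ.filter fun l : Fin M => (θ ∘ Tuple.sort θ) l ≤ c := by
      intro l hl
      rw [Finset.mem_filter]
      exact ⟨Finset.mem_univ _, (hmono (Finset.mem_Iic.1 hl)).trans h⟩
    have h3 := Finset.card_le_card h2
    rw [Fin.card_Iic] at h3
    omega
  · intro h
    by_contra hlt
    have h2 : (Finset.univ.filter fun l : Fin M => (θ ∘ Tuple.sort θ) l ≤ c) ⊆ Finset.Iio k := by
      intro l hl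
      rw [Finset.mem_Iio]
      by_contra hkl
      exact hlt ((hmono (not_lt.1 hkl)).trans (Finset.mem_filter.1 hl).2)
    have h3 := Finset.card_le_card h2
    rw [Fin.card_Iio] at h3
    omega

theorem MEAS : Pool.Agent.N805.JG.S_MEAS := by
  intro M n
  by_cases hM : 0 < M
  · have h1 : ∀ k : Fin M, Measurable fun θ : Fin M → ℝ => θ (Tuple.sort θ k) := by
      intro k
      refine measurable_of_Iic fun c => ?_
      have h2 : (fun θ : Fin M → ℝ => θ (Tuple.sort θ k)) ⁻¹' Set.Iic c =
          {θ | (k : ℕ) < ∑ i : Fin M, (if θ i ≤ c then 1 else 0)} := by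
        ext θ
        exact sort_le_iff θ k c
      rw [h2]
      refine measurableSet_lt measurable_const ?_
      refine Finset.measurable_sum _ fun i _ => ?_
      exact Measurable.ite (measurableSet_le (measurable_pi_apply i) measurable_const)
        measurable_const measurable_const
    unfold pt
    simp only [hM, dif_pos]
    exact ((h1 _).add measurable_const).const_mul _
  · unfold pt
    simp only [hM, dif_neg, not_false_eq_true]
    exact measurable_const

end Pool.Agent.N946.JG
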